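import Pool.Agent.Helper48_LPY.Stmts
import Pool.Agent.Helper48_LPY.Basic

/-!
# LPY: module LAB
-/

set_option autoImplicit false

namespace Pool.Agent.LPY.H48

open Pool.Agent.LAX Pool.Agent.LPY

variable {V : Type} {σ : Equiv.Perm V}

lemma bk_nx {L : ℕ} (B : BS σ L) (v : V) : B.bk (B.nx v) = 0 := by
  have := B.bst (B.nx v)
  rwa [B.snx] at this

lemma run {L : ℕ} (B : BS σ L) (v : V) (j : ℕ) (h : B.bk v + j < L) :
    B.bk ((σ ^ j) v) = B.bk v + j ∧ B.st ((σ ^ j) v) = B.st v ∧ B.nx ((σ ^ j) v) = B.nx v := by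
  induction j with
  | zero => simp
  | succ j ih =>
    obtain ⟨h1, h2, h3⟩ := ih (by omega)
    have e : (σ ^ (j + 1)) v = σ ((σ ^ j) v) := by rw [pow_succ']; rfl
    rw [e]
    rcases B.step ((σ ^ j) v) with ⟨s1, s2, s3⟩ | ⟨s1, s2⟩
    · exact ⟨by omega, by rw [s2, h2], by rw [s3, h3]⟩
    · omega

theorem lab : LabStmt := by
  intro V _ σ a B ω ha hC
  have hlt : ∀ v, ((ω v).2.1 : ℕ) < 2 ^ (a - 1) := fun v => (ω v).2.1.2
  have hpow : 2 ^ (a - 1) * 2 = 2 ^ a := by
    rw [← pow_succ]; congr 1; omega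
  have hpow2 : 2 ^ (a - 10) ≤ 2 ^ (a - 1) := Nat.pow_le_pow_right (by norm_num) (by omega)
  have hpos : 1 ≤ 2 ^ (a - 1) := Nat.one_le_two_pow
  refine ⟨?_, ?_, ?_, ?_, ?_⟩
  · intro v
    rcases B.step v with ⟨s1, s2, s3⟩ | ⟨s1, s2⟩
    · unfold tl hl
      rw [s1, s2, s3]
      rfl
    · have h0 : B.bk (σ v) = 0 := by rw [s1]; exact bk_nx B v
      have h1 : B.st (σ v) = B.nx v := by rw [s1]; exact B.snx v
      have h2 := hlt (B.st v)
      unfold tl hl
      rw [if_pos (by omega), if_neg (by omega), h1]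
  · intro v hv
    unfold isEnd at hv
    unfold tl hl
    by_cases h : B.bk v ≤ ((ω (B.st v)).2.1 : ℕ)
    · rw [if_pos h, if_pos (lt_of_le_of_ne h hv)]
    · rw [if_neg h, if_neg (by omega)]
  · intro v hv
    have := (hv.2.2 0 (Nat.zero_le _)).1
    simpa using this
  · intro v
    obtain ⟨N, hN, hN1⟩ : ∃ N, 0 < N ∧ σ ^ N = 1 := by
      have := isOfFinOrder_of_finite σ
      rw [isOfFinOrder_iff_pow_eq_one] at this
      exact this
    have hst : (σ ^ ((N - 1) * B.bk v)) v = B.st v := by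
      have h1 : (σ ^ ((N - 1) * B.bk v)) ((σ ^ B.bk v) (B.st v)) = B.st v := by
        rw [← Equiv.Perm.mul_apply, ← pow_add]
        have : (N - 1) * B.bk v + B.bk v = N * B.bk v := by
          obtain ⟨M, rfl⟩ : ∃ M, N = M + 1 := ⟨N - 1, by omega⟩
          simp; ring
        rw [this, pow_mul, hN1, one_pow]; rfl
      rwa [B.pos v] at h1
    refine ⟨((ω (B.st v)).2.1 : ℕ) + (N - 1) * B.bk v, ?_⟩
    rw [pow_add, Equiv.Perm.mul_apply, hst]
    have h3 := hlt (B.st v)
    have h4 := run B (B.st v) ((ω (B.st v)).2.1 : ℕ) (by rw [B.bst]; omega)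
    rw [B.bst, zero_add, B.sst] at h4
    unfold isEnd
    rw [h4.1, h4.2.1]
  · intro v j hv hj hj1
    by_contra hcon
    push Not at hcon
    have hinv : (σ⁻¹ ^ j) ((σ ^ j) v) = v := by
      rw [inv_pow, ← Equiv.Perm.mul_apply, inv_mul_cancel]; rfl
    rcases hv with hv | hv
    · rcases hj with hj | hj
      · exact ((hv.2.1 j hj1 hcon).1) hj.1
      · exact (hv.2.2 j hcon).1 hj
    · rcases hj with hj | hj
      · have := (hj.2.2 j hcon).2
        rw [hinv] at this
        exact this hv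
      · unfold isEnd at hv hj
        have h3 := hlt (B.st v)
        obtain ⟨r1, r2, r3⟩ := run B v j (by omega)
        rw [r2] at hj
        omega

end Pool.Agent.LPY.H48
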