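import Pool.Agent.Helper48_LPY.Stmts
import Pool.Agent.Helper48_LPY.Basic
import Pool.Agent.Helper48_LPY.Lab

/-!
# LPY: module CNB
-/

set_option autoImplicit false

namespace Pool.Agent.LPY.H48

open Pool.Agent.LAX Pool.Agent.LPY

/-- Two vertices of a block. -/
lemma blk_pow {V : Type} {σ : Equiv.Perm V} {L : ℕ} (B : BS σ L) {v v' : V}
    (h : B.st v = B.st v') (hb : B.bk v ≤ B.bk v') : (σ ^ (B.bk v' - B.bk v)) v = v' := by
  have e1 := B.pos v
  have e2 := B.pos v'
  rw [← e1, h, ← Equiv.Perm.mul_apply, ← pow_add]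
  conv_lhs => rw [show B.bk v' - B.bk ((σ ^ B.bk v) (B.st v')) + B.bk v = B.bk v' from by
    rw [← h, e1]; omega]
  exact e2

theorem cnb (hLab : LabStmt) : CnbStmt := by
  intro V _ σ a B ω ha hC f
  obtain ⟨-, -, -, -, h5⟩ := hLab V σ a B ω ha hC
  have hpow : 2 ^ (a + 1) = 2048 * 2 ^ (a - 10) := by
    have : a + 1 = 11 + (a - 10) := by omega
    rw [this, pow_add]; norm_num
  have hL : 2 * 2 ^ a = 2 ^ (a + 1) := by rw [pow_succ]; ring
  set D := 2 ^ (a - 10) with hD
  -- gaps
  have hgap : ∀ v v', B.st v = f → B.st v' = f → v ∈ pk B ω → v' ∈ pk B ω → B.bk v < B.bk v' →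
      D < B.bk v' - B.bk v := by
    intro v v' hv hv' hp hp' hlt
    have e := blk_pow B (hv.trans hv'.symm) hlt.le
    exact h5 v (B.bk v' - B.bk v) hp (by rw [e]; exact hp') (by omega)
  have hinj : ∀ v v', B.st v = f → B.st v' = f → B.bk v = B.bk v' → v = v' := by
    intro v v' hv hv' hb
    have e := blk_pow B (hv.trans hv'.symm) hb.le
    rw [hb, Nat.sub_self] at e
    simpa using e
  constructor
  · have hmap : ∀ v ∈ {v | B.st v = f ∧ v ∈ pk B ω}, B.bk v / (D + 1) ∈ Set.Iio 2048 := by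
      intro v _
      have h1 := B.lt v
      rw [Set.mem_Iio, Nat.div_lt_iff_lt_mul (Nat.succ_pos D)]
      rw [hL, hpow] at h1
      nlinarith
    have hinj2 : Set.InjOn (fun v => B.bk v / (D + 1)) {v | B.st v = f ∧ v ∈ pk B ω} := by
      intro v hv v' hv' he
      have he' : B.bk v / (D + 1) = B.bk v' / (D + 1) := he
      rcases lt_trichotomy (B.bk v) (B.bk v') with h | h | h
      · exfalso
        have g := hgap v v' hv.1 hv'.1 hv.2 hv'.2 h
        have : B.bk v / (D + 1) + 1 ≤ B.bk v' / (D + 1) := by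
          rw [← Nat.add_div_right _ (Nat.succ_pos D)]
          exact Nat.div_le_div_right (by omega)
        omega
      · exact hinj v v' hv.1 hv'.1 h
      · exfalso
        have g := hgap v' v hv'.1 hv.1 hv'.2 hv.2 h
        have : B.bk v' / (D + 1) + 1 ≤ B.bk v / (D + 1) := by
          rw [← Nat.add_div_right _ (Nat.succ_pos D)]
          exact Nat.div_le_div_right (by omega)
        omega
    have := Set.ncard_le_ncard_of_injOn _ hmap hinj2 (Set.finite_Iio 2048)
    refine this.trans ?_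
    rw [Set.ncard_eq_toFinset_card', Set.toFinset_Iio, Nat.card_Iio]
  · rw [Set.ncard_le_one_iff_subsingleton]
    rintro v ⟨hv, hev⟩ v' ⟨hv', hev'⟩
    unfold isEnd at hev hev'
    refine hinj v v' hv hv' ?_
    rw [hev, hev', hv, hv']

end Pool.Agent.LPY.H48
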