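import Pool.Agent.Helper48_LPY.Stmts
import Pool.Agent.Helper48_LPY.Basic
import Pool.Agent.Helper27_LAX.Grp

/-!
# LPY: module FCT
-/

set_option autoImplicit false

namespace Pool.Agent.LPY.H48

open Pool.Agent.LAX Pool.Agent.LPY

lemma comp_diag {V : Type} (M : Set (V × V)) : comp {p : V × V | p.1 = p.2} M = M := by
  ext ⟨x, y⟩
  constructor
  · rintro ⟨z, h1, h2⟩
    have h1' : x = z := h1
    subst h1'
    exact h2
  · intro h
    exact ⟨x, rfl, h⟩

/-- At most one class of each of the `n` groups. -/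
lemma groups_le {q D n : ℕ} (hD : 1 ≤ D) (hq : q ≤ n * D) (Pr : ℕ → Prop)
    (h : ∀ g, {c | c ∈ (Finset.range q).filter (fun c => c / D = g) ∧ Pr c}.ncard ≤ 1) :
    {c | c < q ∧ Pr c}.ncard ≤ n := by
  have hmap : ∀ c ∈ {c | c < q ∧ Pr c}, c / D ∈ Set.Iio n := by
    rintro c ⟨hc, -⟩
    rw [Set.mem_Iio, Nat.div_lt_iff_lt_mul hD]
    omega
  have hinj : Set.InjOn (fun c => c / D) {c | c < q ∧ Pr c} := by
    rintro c ⟨hc, hp⟩ c' ⟨hc', hp'⟩ he
    have he' : c / D = c' / D := he
    have h1 := h (c / D)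
    rw [Set.ncard_le_one ((Finset.finite_toSet _).subset fun c hc => hc.1)] at h1
    exact h1 c ⟨by simp [hc], hp⟩ c' ⟨by simp [hc', he'], hp'⟩
  have h2 := Set.ncard_le_ncard_of_injOn _ hmap hinj (Set.finite_Iio n)
  refine h2.trans ?_
  rw [Set.ncard_eq_toFinset_card', Set.toFinset_Iio, Nat.card_Iio]

theorem fct (hIT : ITStmt) : FctStmt := by
  classical
  intro V _ E q b W n K hb hS hq
  have hD1 : 1 ≤ 2 ^ (b - 3) := Nat.one_le_two_pow
  have hD8 : 4 * (2 * 2 ^ (b - 3)) ≤ 2 ^ b := by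
    have : b = (b - 3) + 3 := by omega
    conv_rhs => rw [this]
    rw [pow_add]; omega
  have hcard : ∀ g, ((Finset.range q).filter (fun c => c / 2 ^ (b - 3) = g)).card ≤ 2 ^ (b - 3) := by
    intro g
    have hsub : (Finset.range q).filter (fun c => c / 2 ^ (b - 3) = g) ⊆
        Finset.Ico (g * 2 ^ (b - 3)) (g * 2 ^ (b - 3) + 2 ^ (b - 3)) := by
      intro c hc
      rw [Finset.mem_filter] at hc
      rw [Finset.mem_Ico, ← hc.2]
      constructor
      · exact Nat.div_mul_le_self _ _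
      · have := Nat.lt_div_mul_add (a := c) hD1
        omega
    refine (Finset.card_le_card hsub).trans ?_
    rw [Nat.card_Ico]; omega
  have hgrp : ∀ g, ∃ X : ℕ → Set (V × V),
      (∀ c ∈ (Finset.range q).filter (fun c => c / 2 ^ (b - 3) = g),
        X c ⊆ K c ∧ Acyc (K c \ X c)) ∧
      ∀ v, {c | c ∈ (Finset.range q).filter (fun c => c / 2 ^ (b - 3) = g) ∧
        v ∈ dom (X c)}.ncard ≤ 1 ∧
        {c | c ∈ (Finset.range q).filter (fun c => c / 2 ^ (b - 3) = g) ∧
        v ∈ ran (X c)}.ncard ≤ 1 := by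
    intro g
    have hle : ∀ Pr : ℕ → Prop, {c | c ∈ (Finset.range q).filter (fun c => c / 2 ^ (b - 3) = g) ∧
        Pr c}.ncard ≤ 2 ^ (b - 3) := by
      intro Pr
      refine le_trans (Set.ncard_le_ncard (t := (((Finset.range q).filter
        (fun c => c / 2 ^ (b - 3) = g) : Finset ℕ) : Set ℕ)) (fun c hc => hc.1)
        (Finset.finite_toSet _)) ?_
      rw [Set.ncard_coe_finset]
      exact hcard g
    obtain ⟨X, hX1, hX2⟩ := LAX.H27.grp hIT V
      ((Finset.range q).filter (fun c => c / 2 ^ (b - 3) = g)) (fun _ => {p : V × V | p.1 = p.2}) K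
      (2 ^ b) (2 ^ (b - 3)) hD1 hD8 (by
        intro c hc
        rw [Finset.mem_filter, Finset.mem_range] at hc
        refine ⟨⟨?_, ?_⟩, hS.pi c hc.1, ?_⟩
        · intro x y y' h h'
          exact (show x = y from h).symm.trans h'
        · intro x x' y h h'
          exact (show x = y from h).trans (show x' = y from h').symm
        · rw [comp_diag]
          exact hS.cw c hc.1) (fun v => ⟨hle _, hle _⟩)
    refine ⟨X, ?_, hX2⟩
    intro c hc
    have := hX1 c hc
    rw [comp_diag] at this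
    exact this
  choose X hX1 hX2 using hgrp
  have hX1' : ∀ c < q, X (c / 2 ^ (b - 3)) c ⊆ K c ∧ Acyc (K c \ X (c / 2 ^ (b - 3)) c) := by
    intro c hc
    exact hX1 (c / 2 ^ (b - 3)) c (by simp [hc])
  refine ⟨fun c => K c \ X (c / 2 ^ (b - 3)) c, ?_, ?_, ?_⟩
  · intro c hc
    exact ⟨Set.sdiff_subset.trans (hS.sub c hc), (hS.pi c hc).mono Set.sdiff_subset,
      (hX1' c hc).2⟩
  · intro c hc d hd hcd
    exact (hS.disj c hc d hd hcd).mono Set.sdiff_subset Set.sdiff_subset
  · intro v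
    have hfin : ∀ Pr : ℕ → Prop, {c | c < q ∧ Pr c}.Finite := fun Pr =>
      (Set.finite_lt_nat q).subset fun c hc => hc.1
    constructor
    · have hsub : {c | c < q ∧ v ∉ dom (K c \ X (c / 2 ^ (b - 3)) c)} ⊆
          {c | c < q ∧ v ∉ dom (K c)} ∪ {c | c < q ∧ v ∈ dom (X (c / 2 ^ (b - 3)) c)} := by
        rintro c ⟨hc, hv⟩
        by_cases h : v ∈ dom (K c)
        · right
          obtain ⟨y, hy⟩ := h
          refine ⟨hc, y, ?_⟩
          by_contra hcon
          exact hv ⟨y, hy, hcon⟩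
        · left; exact ⟨hc, h⟩
      have h1 := Set.ncard_le_ncard hsub ((hfin _).union (hfin _))
      have h2 := Set.ncard_union_le {c | c < q ∧ v ∉ dom (K c)}
        {c | c < q ∧ v ∈ dom (X (c / 2 ^ (b - 3)) c)}
      have h3 : {c | c < q ∧ v ∈ dom (X (c / 2 ^ (b - 3)) c)}.ncard ≤ n := by
        refine groups_le hD1 hq (fun c => v ∈ dom (X (c / 2 ^ (b - 3)) c)) ?_
        intro g
        refine le_trans (Set.ncard_le_ncard ?_ ((Finset.finite_toSet _).subset fun c hc => hc.1))
          (hX2 g v).1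
        rintro c ⟨h4, h5⟩
        refine ⟨h4, ?_⟩
        rw [Finset.mem_filter] at h4
        rw [← h4.2]
        exact h5
      have h4 := hS.mo v
      exact h1.trans (h2.trans (Nat.add_le_add h4 h3))
    · have hsub : {c | c < q ∧ v ∉ ran (K c \ X (c / 2 ^ (b - 3)) c)} ⊆
          {c | c < q ∧ v ∉ ran (K c)} ∪ {c | c < q ∧ v ∈ ran (X (c / 2 ^ (b - 3)) c)} := by
        rintro c ⟨hc, hv⟩
        by_cases h : v ∈ ran (K c)
        · right
          obtain ⟨y, hy⟩ := h
          refine ⟨hc, y, ?_⟩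
          by_contra hcon
          exact hv ⟨y, hy, hcon⟩
        · left; exact ⟨hc, h⟩
      have h1 := Set.ncard_le_ncard hsub ((hfin _).union (hfin _))
      have h2 := Set.ncard_union_le {c | c < q ∧ v ∉ ran (K c)}
        {c | c < q ∧ v ∈ ran (X (c / 2 ^ (b - 3)) c)}
      have h3 : {c | c < q ∧ v ∈ ran (X (c / 2 ^ (b - 3)) c)}.ncard ≤ n := by
        refine groups_le hD1 hq (fun c => v ∈ ran (X (c / 2 ^ (b - 3)) c)) ?_
        intro g
        refine le_trans (Set.ncard_le_ncard ?_ ((Finset.finite_toSet _).subset fun c hc => hc.1))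
          (hX2 g v).2
        rintro c ⟨h4, h5⟩
        refine ⟨h4, ?_⟩
        rw [Finset.mem_filter] at h4
        rw [← h4.2]
        exact h5
      have h4 := hS.mi v
      exact h1.trans (h2.trans (Nat.add_le_add h4 h3))

end Pool.Agent.LPY.H48
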