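import Pool.Agent.Helper48_LPY.Stmts
import Pool.Agent.Helper48_LPY.Basic

/-!
# LPY: module RLK
-/

set_option autoImplicit false

namespace Pool.Agent.LPY.H48

open Pool.Agent.LAX Pool.Agent.LPY

/-- Closed walks are long: abstract version. -/
lemma cw_abs {V : Type} (σ : Equiv.Perm V) (F Lk : Set (V × V)) (P E : Set V) (t : V → Lab)
    (D : ℕ)
    (hF : ∀ p ∈ F, (p ∉ Lk ∧ p.2 = σ p.1 ∧ t p.2 = t p.1 ∧ p.1 ∉ E) ∨
      (p ∈ Lk ∧ p.1 ∈ P ∧ σ⁻¹ p.2 ∈ P ∧ (t p.2 = t p.1 + 1 ∨ t p.2 = t p.1 + 2)))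
    (hE : ∀ v, ∃ j, (σ ^ j) v ∈ E) (hgap : ∀ v j, v ∈ P → (σ ^ j) v ∈ P → 1 ≤ j → D < j)
    (j : ℕ) (c : ℕ → V) (hj : 1 ≤ j) (hc : ∀ i < j, (c i, c (i + 1)) ∈ F) (hcj : c j = c 0) :
    2048 * (D + 1) ≤ j := by
  classical
  -- the periodic walk
  obtain ⟨e, he⟩ : ∃ e : ℕ → V, ∀ i, e i = c (i % j) := ⟨fun i => c (i % j), fun _ => rfl⟩
  have hper : ∀ i, e (i + j) = e i := by intro i; rw [he, he, Nat.add_mod_right]
  have hmod : ∀ i, e (i % j) = e i := by intro i; rw [he, he, Nat.mod_mod]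
  have hmod1 : ∀ i, e (i % j + 1) = e (i + 1) := by intro i; rw [he, he, Nat.mod_add_mod]
  have heF : ∀ i, (e i, e (i + 1)) ∈ F := by
    intro i
    have hlt : i % j < j := Nat.mod_lt _ hj
    have h1 := hc (i % j) hlt
    have h2 : e (i + 1) = c (i % j + 1) := by
      rw [← hmod1]
      by_cases h : i % j + 1 < j
      · rw [he, Nat.mod_eq_of_lt h]
      · have : i % j + 1 = j := by omega
        rw [this, hcj, he, Nat.mod_self]
    rw [he i, h2]
    exact h1
  obtain ⟨L, hL⟩ : ∃ L : ℕ → Prop, ∀ i, L i ↔ (e i, e (i + 1)) ∈ Lk := ⟨_, fun _ => Iff.rfl⟩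
  have hLper : ∀ i, L (i + j) ↔ L i := by
    intro i
    rw [hL, hL, hper, show i + j + 1 = (i + 1) + j from by ring, hper]
  have hLmod : ∀ i, L (i % j) ↔ L i := by
    intro i; rw [hL, hL, hmod, hmod1]
  have hno : ∀ i, ¬ L i → e (i + 1) = σ (e i) ∧ t (e (i + 1)) = t (e i) ∧ e i ∉ E := by
    intro i hi
    rcases hF _ (heF i) with h | h
    · exact ⟨h.2.1, h.2.2.1, h.2.2.2⟩
    · exact absurd ((hL i).2 h.1) hi
  have hyes : ∀ i, L i → e i ∈ P ∧ σ⁻¹ (e (i + 1)) ∈ P ∧
      (t (e (i + 1)) = t (e i) + 1 ∨ t (e (i + 1)) = t (e i) + 2) := by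
    intro i hi
    rcases hF _ (heF i) with h | h
    · exact absurd ((hL i).1 hi) h.1
    · exact h.2
  -- there is a link
  have hex : ∃ i < j, L i := by
    by_contra hcon
    push Not at hcon
    have hall : ∀ i, ¬ L i := by
      intro i hi
      exact hcon (i % j) (Nat.mod_lt _ hj) ((hLmod i).2 hi)
    have hpow : ∀ i, e i = (σ ^ i) (e 0) := by
      intro i
      induction i with
      | zero => simp
      | succ i ih => rw [(hno i (hall i)).1, ih, pow_succ', Equiv.Perm.mul_apply]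
    obtain ⟨m, hm⟩ := hE (e 0)
    rw [← hpow m] at hm
    exact (hno m (hall m)).2.2 hm
  -- gaps
  have hgap2 : ∀ i i', L i → L i' → i < i' → D < i' - i := by
    intro i i' hi hi' hlt
    have hex2 : ∃ m, L (i + 1 + m) := ⟨i' - i - 1, by
      rw [show i + 1 + (i' - i - 1) = i' from by omega]; exact hi'⟩
    obtain ⟨m, hm, hmin⟩ : ∃ m, L (i + 1 + m) ∧ ∀ m' < m, ¬ L (i + 1 + m') :=
      ⟨Nat.find hex2, Nat.find_spec hex2, fun m' hm' => Nat.find_min hex2 hm'⟩
    have hle : m ≤ i' - i - 1 := by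
      by_contra hcon
      push Not at hcon
      refine hmin (i' - i - 1) hcon ?_
      rw [show i + 1 + (i' - i - 1) = i' from by omega]; exact hi'
    have hpow : ∀ m' ≤ m, e (i + 1 + m') = (σ ^ m') (e (i + 1)) := by
      intro m'
      induction m' with
      | zero => intro _; simp
      | succ m' ih =>
        intro hm'
        rw [show i + 1 + (m' + 1) = (i + 1 + m') + 1 from by ring,
          (hno _ (hmin m' (by omega))).1, ih (by omega), pow_succ', Equiv.Perm.mul_apply]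
    have h1 := (hyes i hi).2.1
    have h2 := (hyes _ hm).1
    rw [hpow m le_rfl] at h2
    have h3 : (σ ^ (m + 1)) (σ⁻¹ (e (i + 1))) = (σ ^ m) (e (i + 1)) := by
      rw [pow_succ, Equiv.Perm.mul_apply]; simp
    have h4 := hgap _ (m + 1) h1 (by rw [h3]; exact h2) (by omega)
    omega
  -- the number of links
  set S : Finset ℕ := (Finset.range j).filter L with hS
  have hSmem : ∀ i, i ∈ S ↔ i < j ∧ L i := by intro i; rw [hS]; simp
  have hDj : D < j := by
    obtain ⟨i, hi, hLi⟩ := hex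
    have := hgap2 i (i + j) hLi ((hLper i).2 hLi) (by omega)
    omega
  have hcard : S.card * (D + 1) ≤ j := by
    have h1 : (S ×ˢ Finset.range (D + 1)).card ≤ (Finset.range j).card := by
      apply Finset.card_le_card_of_injOn (fun p => (p.1 + p.2) % j)
      · intro p _
        simp only [Finset.coe_range, Set.mem_Iio]
        exact Nat.mod_lt _ hj
      · rintro ⟨i, u⟩ hp ⟨i', u'⟩ hp' heq
        simp only [Finset.coe_product, Set.mem_prod, Finset.mem_coe, Finset.mem_range, hSmem]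
          at hp hp'
        have heq' : (i + u) % j = (i' + u') % j := heq
        obtain ⟨⟨hi, hLi⟩, hu⟩ := hp
        obtain ⟨⟨hi', hLi'⟩, hu'⟩ := hp'
        have key : ∀ i u i' u', i < j → L i → u < D + 1 → i' < j → L i' → u' < D + 1 →
            (i + u) % j = (i' + u') % j → i ≤ i' → i = i' := by
          intro i u i' u' hi hLi hu hi' hLi' hu' heq hle
          by_contra hne
          have hlt : i < i' := by omega
          have g1 := hgap2 i i' hLi hLi' hlt
          have g2 := hgap2 i' (i + j) hLi' ((hLper i).2 hLi) (by omega)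
          have m1 : i + u = (i + u) % j ∨ i + u = (i + u) % j + j := by
            rcases lt_or_ge (i + u) j with h | h
            · left; rw [Nat.mod_eq_of_lt h]
            · right
              rw [Nat.mod_eq_sub_mod h, Nat.mod_eq_of_lt (by omega)]
              omega
          have m2 : i' + u' = (i' + u') % j ∨ i' + u' = (i' + u') % j + j := by
            rcases lt_or_ge (i' + u') j with h | h
            · left; rw [Nat.mod_eq_of_lt h]
            · right
              rw [Nat.mod_eq_sub_mod h, Nat.mod_eq_of_lt (by omega)]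
              omega
          rw [heq] at m1
          omega
        have hii : i = i' := by
          rcases le_total i i' with h | h
          · exact key i u i' u' hi hLi hu hi' hLi' hu' heq' h
          · exact (key i' u' i u hi' hLi' hu' hi hLi hu heq'.symm h).symm
        subst hii
        have huu : u = u' := by
          have m1 : i + u = (i + u) % j ∨ i + u = (i + u) % j + j := by
            rcases lt_or_ge (i + u) j with h | h
            · left; rw [Nat.mod_eq_of_lt h]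
            · right
              rw [Nat.mod_eq_sub_mod h, Nat.mod_eq_of_lt (by omega)]
              omega
          have m2 : i + u' = (i + u') % j ∨ i + u' = (i + u') % j + j := by
            rcases lt_or_ge (i + u') j with h | h
            · left; rw [Nat.mod_eq_of_lt h]
            · right
              rw [Nat.mod_eq_sub_mod h, Nat.mod_eq_of_lt (by omega)]
              omega
          rw [heq'] at m1
          omega
        rw [huu]
    rwa [Finset.card_product, Finset.card_range, Finset.card_range] at h1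
  -- the labels
  have hd : ∀ i, ∃ d : ℕ, t (e (i + 1)) = t (e i) + (d : Lab) ∧ (L i → 1 ≤ d ∧ d ≤ 2) ∧
      (¬ L i → d = 0) := by
    intro i
    by_cases hi : L i
    · rcases (hyes i hi).2.2 with h | h
      · exact ⟨1, by rw [h]; norm_num, fun _ => ⟨le_rfl, by norm_num⟩, fun h => absurd hi h⟩
      · exact ⟨2, by rw [h]; norm_num, fun _ => ⟨by norm_num, le_rfl⟩, fun h => absurd hi h⟩
    · exact ⟨0, by rw [(hno i hi).2.1]; simp, fun h => absurd h hi, fun _ => rfl⟩
  choose d hd1 hd2 hd3 using hd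
  have hsum : ∀ n, t (e n) = t (e 0) + ((∑ i ∈ Finset.range n, d i : ℕ) : Lab) := by
    intro n
    induction n with
    | zero => simp
    | succ n ih => rw [hd1, ih, Finset.sum_range_succ]; push_cast; ring
  have h0 : ((∑ i ∈ Finset.range j, d i : ℕ) : Lab) = 0 := by
    have h1 := hsum j
    have h2 : e j = e 0 := by have := hper 0; rwa [zero_add] at this
    rw [h2] at h1
    exact left_eq_add.1 h1
  have hdvd : 4096 ∣ ∑ i ∈ Finset.range j, d i := (ZMod.natCast_eq_zero_iff _ _).1 h0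
  have hsumS : ∑ i ∈ Finset.range j, d i = ∑ i ∈ S, d i := by
    rw [hS, Finset.sum_filter]
    refine Finset.sum_congr rfl fun i _ => ?_
    by_cases hi : L i
    · rw [if_pos hi]
    · rw [if_neg hi, hd3 i hi]
  have hup : ∑ i ∈ S, d i ≤ 2 * S.card := by
    have h1 : ∑ i ∈ S, d i ≤ S.card • 2 :=
      Finset.sum_le_card_nsmul S d 2 (fun i hi => (hd2 i ((hSmem i).1 hi).2).2)
    rw [smul_eq_mul] at h1
    omega
  have hlow : S.card ≤ ∑ i ∈ S, d i := by
    have h1 : S.card • 1 ≤ ∑ i ∈ S, d i :=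
      Finset.card_nsmul_le_sum S d 1 (fun i hi => (hd2 i ((hSmem i).1 hi).2).1)
    rw [smul_eq_mul] at h1
    omega
  have hSpos : 1 ≤ S.card := by
    obtain ⟨i, hi, hLi⟩ := hex
    exact Finset.card_pos.2 ⟨i, (hSmem i).2 ⟨hi, hLi⟩⟩
  have h2048 : 2048 ≤ S.card := by
    rw [hsumS] at hdvd
    have := Nat.le_of_dvd (by omega) hdvd
    omega
  calc 2048 * (D + 1) ≤ S.card * (D + 1) := Nat.mul_le_mul_right _ h2048
    _ ≤ j := hcard

theorem rlk (hLab : LabStmt) : RlkStmt := by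
  intro V _ σ a B ω K R M Zp Zm ha hC hK hPI hM hdom hran
  obtain ⟨l1, l2, l3, l4, l5⟩ := hLab V σ a B ω ha hC
  have flh : ∀ v, isFlex B ω v → hl B ω v = tl B ω v := fun v hv => l2 v (l3 v hv)
  -- facts on M
  have ft : ∀ z ∈ M, z.1.1 ∈ pk B ω ∧ tl B ω z.1.1 = z.1.2 := by
    intro z hz
    rcases hM z hz with ⟨-, h⟩ | ⟨h | h, -⟩
    · exact ⟨Or.inl h.1, h.2⟩
    · exact ⟨Or.inl h.1, h.2⟩
    · exact ⟨Or.inr h.1, h.2⟩
  have fh : ∀ z ∈ M, z.2.1 ∈ pk B ω ∧ hl B ω z.2.1 = z.2.2 := by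
    intro z hz
    rcases hM z hz with ⟨he, h⟩ | ⟨-, h | h, -⟩
    · rw [← he]
      exact ⟨Or.inl h.1, by rw [flh _ h.1]; exact h.2⟩
    · exact ⟨Or.inl h.1, by rw [flh _ h.1]; exact h.2⟩
    · exact ⟨Or.inr h.1, h.2⟩
  have fl1 : ∀ z ∈ M, z.1 = z.2 → isFlex B ω z.1.1 ∨ (tl B ω z.1.1 = tl B ω z.1.1 + 1 ∨
      tl B ω z.1.1 = tl B ω z.1.1 + 2) := by
    intro z hz he
    rcases hM z hz with ⟨-, h⟩ | ⟨-, -, -, h⟩
    · exact Or.inl h.1
    · right
      rw [← he] at h
      rw [(ft z hz).2]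
      exact h
  have fl2 : ∀ z ∈ M, z.1 = z.2 → isFlex B ω z.1.1 := by
    intro z hz he
    rcases fl1 z hz he with h | h | h
    · exact h
    · exact absurd (left_eq_add.1 h) (by decide)
    · exact absurd (left_eq_add.1 h) (by decide)
  have meq1 : ∀ z ∈ M, ∀ z' ∈ M, z.1.1 = z'.1.1 → z = z' := by
    intro z hz z' hz' h
    have e1 : z.1 = z'.1 := Prod.ext h (by rw [← (ft z hz).2, ← (ft z' hz').2, h])
    have e2 : z.2 = z'.2 := by
      apply hPI.1 z.1 z.2 z'.2 hz
      rw [e1]; exact hz'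
    exact Prod.ext e1 e2
  have meq2 : ∀ z ∈ M, ∀ z' ∈ M, z.2.1 = z'.2.1 → z = z' := by
    intro z hz z' hz' h
    have e1 : z.2 = z'.2 := Prod.ext h (by rw [← (fh z hz).2, ← (fh z' hz').2, h])
    have e2 : z.1 = z'.1 := by
      apply hPI.2 z.1 z'.1 z.2 hz
      rw [e1]; exact hz'
    exact Prod.ext e2 e1
  -- the arcs
  have hsub : nk B ω K M ⊆ K ∪ R := by
    rintro p ((hp | ⟨z, hz, hne, h1, h2⟩) | hp)
    · exact Or.inl hp.1
    · right
      rcases hM z hz with ⟨h, -⟩ | ⟨-, -, h, -⟩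
      · exact absurd h hne
      · rw [h1, h2] at h; exact h
    · exact Or.inl hp.1
  refine ⟨⟨?_, ?_⟩, hsub, ?_, ?_, ?_, ?_⟩
  · rintro x y y' h h'
    rcases h with (⟨k1, k2⟩ | ⟨z, hz, hne, h1, h2⟩) | ⟨k1, z, hz, he, h1⟩ <;>
    rcases h' with (⟨k1', k2'⟩ | ⟨z', hz', hne', h1', h2'⟩) | ⟨k1', z', hz', he', h1'⟩
    · exact (hK _ k1).symm.trans (hK _ k1')
    · exact absurd (h1' ▸ (ft z' hz').1) k2
    · exact absurd (h1' ▸ (ft z' hz').1) k2
    · exact absurd (h1 ▸ (ft z hz).1) k2'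
    · have := meq1 z hz z' hz' (h1.trans h1'.symm)
      subst this
      exact h2.symm.trans h2'
    · have := meq1 z hz z' hz' (h1.trans h1'.symm)
      subst this
      exact absurd he' hne
    · exact absurd (h1 ▸ (ft z hz).1) k2'
    · have := meq1 z hz z' hz' (h1.trans h1'.symm)
      subst this
      exact absurd he hne'
    · exact (hK _ k1).symm.trans (hK _ k1')
  · rintro x x' y h h'
    have hq1 : ∀ x, (x, y) ∈ K → x = σ⁻¹ y := by
      intro x hx
      have := hK _ hx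
      simp only at this
      rw [← this]; simp
    have hq2 : ∀ z : (V × Lab) × (V × Lab), σ z.2.1 = y → z.2.1 = σ⁻¹ y := by
      intro z hz; rw [← hz]; simp
    rcases h with (⟨k1, k2⟩ | ⟨z, hz, hne, h1, h2⟩) | ⟨k1, z, hz, he, h1⟩ <;>
    rcases h' with (⟨k1', k2'⟩ | ⟨z', hz', hne', h1', h2'⟩) | ⟨k1', z', hz', he', h1'⟩
    · exact (hq1 x k1).trans (hq1 x' k1').symm
    · exfalso
      apply k2
      have e1 : x = z'.2.1 := (hq1 x k1).trans (hq2 z' h2').symm
      show x ∈ pk B ω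
      rw [e1]; exact (fh z' hz').1
    · exact (hq1 x k1).trans (hq1 x' k1').symm
    · exfalso
      apply k2'
      have e1 : x' = z.2.1 := (hq1 x' k1').trans (hq2 z h2).symm
      show x' ∈ pk B ω
      rw [e1]; exact (fh z hz).1
    · have := meq2 z hz z' hz' ((hq2 z h2).trans (hq2 z' h2').symm)
      subst this
      exact h1.symm.trans h1'
    · exfalso
      have e1 : z.2.1 = z'.2.1 := by
        rw [hq2 z h2, ← he', h1']; exact (hq1 x' k1').symm
      have := meq2 z hz z' hz' e1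
      subst this
      exact hne he'
    · exact (hq1 x k1).trans (hq1 x' k1').symm
    · exfalso
      have e1 : z'.2.1 = z.2.1 := by
        rw [hq2 z' h2', ← he, h1]; exact (hq1 x k1).symm
      have := meq2 z' hz' z hz e1
      subst this
      exact hne' he
    · exact (hq1 x k1).trans (hq1 x' k1').symm
  · intro j c hj hc hcj
    have hpow : 2 ^ (a + 1) = 2048 * 2 ^ (a - 10) := by
      have : a + 1 = 11 + (a - 10) := by omega
      rw [this, pow_add]; norm_num
    have := cw_abs σ (nk B ω K M)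
      {p | ∃ z ∈ M, z.1 ≠ z.2 ∧ z.1.1 = p.1 ∧ σ z.2.1 = p.2} (pk B ω) {v | isEnd B ω v} (tl B ω)
      (2 ^ (a - 10)) ?_ l4 l5 j c hj hc hcj
    · rw [hpow]; omega
    · intro p hp
      by_cases hpL : p ∈ {p : V × V | ∃ z ∈ M, z.1 ≠ z.2 ∧ z.1.1 = p.1 ∧ σ z.2.1 = p.2}
      · right
        refine ⟨hpL, ?_⟩
        obtain ⟨z, hz, hne, h1, h2⟩ := hpL
        refine ⟨by rw [← h1]; exact (ft z hz).1, by rw [← h2]; simpa using (fh z hz).1, ?_⟩
        rw [← h2, ← h1, l1, (fh z hz).2, (ft z hz).2]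
        rcases hM z hz with ⟨h, -⟩ | ⟨-, -, -, h⟩
        · exact absurd h hne
        · exact h
      · left
        refine ⟨hpL, ?_⟩
        rcases hp with (⟨k1, k2⟩ | hp) | ⟨k1, z, hz, he, h1⟩
        · have h3 : ¬ isEnd B ω p.1 := fun h => k2 (Or.inr h)
          refine ⟨(hK p k1).symm, ?_, h3⟩
          rw [← hK p k1, l1, l2 _ h3]
        · exact absurd hp hpL
        · have h3 : ¬ isEnd B ω p.1 := by rw [← h1]; exact l3 _ (fl2 z hz he)
          refine ⟨(hK p k1).symm, ?_, h3⟩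
          rw [← hK p k1, l1, l2 _ h3]
  · rintro x ⟨y, hy⟩ hx
    have hxy : σ x = y := hK _ hy
    have hxp : x ∈ pk B ω := by
      by_contra h
      exact hx ⟨y, Or.inl (Or.inl ⟨hy, h⟩)⟩
    have hnode : (x, tl B ω x) ∈ FL B ω ∪ ET B ω := by
      rcases hxp with h | h
      · exact Or.inl ⟨h, rfl⟩
      · exact Or.inr ⟨h, rfl⟩
    have hnd : (x, tl B ω x) ∉ dom M := by
      rintro ⟨q, hq⟩
      by_cases he : (x, tl B ω x) = q
      · exact hx ⟨y, Or.inr ⟨hy, _, hq, he, rfl⟩⟩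
      · exact hx ⟨σ q.1, Or.inl (Or.inr ⟨_, hq, he, rfl, rfl⟩)⟩
    exact ⟨(hdom _ hnode hnd).2, hxp⟩
  · rintro y ⟨x, hx⟩ hy
    have hxy : σ x = y := hK _ hx
    have hxi : σ⁻¹ y = x := by rw [← hxy]; simp
    have hxp : x ∈ pk B ω := by
      by_contra h
      exact hy ⟨x, Or.inl (Or.inl ⟨hx, h⟩)⟩
    have hnode : (x, hl B ω x) ∈ FL B ω ∪ EH B ω := by
      rcases hxp with h | h
      · exact Or.inl ⟨h, (flh x h).symm⟩
      · exact Or.inr ⟨h, rfl⟩
    have hnd : (x, hl B ω x) ∉ ran M := by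
      rintro ⟨q, hq⟩
      by_cases he : q = (x, hl B ω x)
      · exact hy ⟨x, Or.inr ⟨hx, _, hq, he, by simp [he]⟩⟩
      · exact hy ⟨q.1, Or.inl (Or.inr ⟨_, hq, he, rfl, hxy⟩)⟩
    have h3 := (hran _ hnode hnd).2
    simp only at h3
    rw [hxy] at h3
    rw [hxi]
    exact ⟨h3, hxp⟩
  · rintro p ((hp | ⟨z, hz, hne, h1, h2⟩) | hp) hpK
    · exact absurd hp.1 hpK
    · refine ⟨by rw [← h1]; exact (ft z hz).1, ?_⟩
      rw [← h2]; simpa using (fh z hz).1
    · exact absurd hp.1 hpK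

end Pool.Agent.LPY.H48
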