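import Pool.Agent.Helper48_LPY.All0
import Pool.Agent.Helper48_LPY.Cnb
import Pool.Agent.Helper48_LPY.Rlk
import Pool.Agent.Helper48_LPY.Fct

/-!
# LPY: the final statement, all modules put together
-/

set_option autoImplicit false

namespace Pool.Agent.LPY

theorem fin_all : FinStmt := fin_of H48.cnb H48.rlk H48.fct

end Pool.Agent.LPY
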