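import Pool.Agent.Helper48_LPY.Stmts
import Pool.Agent.Helper48_LPY.Basic
import Pool.Agent.Helper48_LPY.Lab

/-!
# LPY: module LOC
-/

set_option autoImplicit false

namespace Pool.Agent.LPY.H48

open Pool.Agent.LAX Pool.Agent.LPY

variable {V : Type} {σ : Equiv.Perm V}

lemma fwd {L : ℕ} (B : BS σ L) (v : V) (j : ℕ) (h : j < L) :
    (B.st ((σ ^ j) v) = B.st v ∧ B.nx ((σ ^ j) v) = B.nx v) ∨
    (B.st ((σ ^ j) v) = B.nx v ∧ B.bk ((σ ^ j) v) < j) := by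
  induction j with
  | zero => left; simp
  | succ j ih =>
    have e : (σ ^ (j + 1)) v = σ ((σ ^ j) v) := by rw [pow_succ']; rfl
    rw [e]
    rcases ih (by omega) with ⟨h1, h2⟩ | ⟨h1, h2⟩
    · rcases B.step ((σ ^ j) v) with ⟨s1, s2, s3⟩ | ⟨s1, s2⟩
      · left; exact ⟨by rw [s2, h1], by rw [s3, h2]⟩
      · right
        rw [s1, h2, B.snx, bk_nx]
        exact ⟨rfl, Nat.succ_pos _⟩
    · rcases B.step ((σ ^ j) v) with ⟨s1, s2, s3⟩ | ⟨s1, s2⟩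
      · right; exact ⟨by rw [s2, h1], by omega⟩
      · omega

lemma nb_self {L : ℕ} (B : BS σ L) (v : V) : v ∈ nb B v := Or.inl rfl

lemma nb_st {L : ℕ} (B : BS σ L) (v : V) : B.st v ∈ nb B v := Or.inl (B.sst v)

lemma nb_nx {L : ℕ} (B : BS σ L) (v : V) : B.nx v ∈ nb B v := Or.inr (Or.inl (B.snx v))

lemma nb_fwd {L : ℕ} (B : BS σ L) (v : V) (j : ℕ) (h : j < L) :
    (σ ^ j) v ∈ nb B v ∧ B.st ((σ ^ j) v) ∈ nb B v := by
  rcases fwd B v j h with ⟨h1, h2⟩ | ⟨h1, h2⟩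
  · exact ⟨Or.inl h1, Or.inl (by rw [B.sst, h1])⟩
  · exact ⟨Or.inr (Or.inl h1), Or.inr (Or.inl (by rw [B.sst, h1]))⟩

lemma nb_bwd {L : ℕ} (B : BS σ L) (v : V) (j : ℕ) (h : j < L) :
    (σ⁻¹ ^ j) v ∈ nb B v ∧ B.st ((σ⁻¹ ^ j) v) ∈ nb B v := by
  have hinv : (σ ^ j) ((σ⁻¹ ^ j) v) = v := by
    rw [inv_pow, ← Equiv.Perm.mul_apply, mul_inv_cancel]; rfl
  have h0 := fwd B ((σ⁻¹ ^ j) v) j h
  rw [hinv] at h0
  rcases h0 with ⟨h1, h2⟩ | ⟨h1, h2⟩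
  · exact ⟨Or.inl h1.symm, Or.inl (by rw [B.sst, h1])⟩
  · exact ⟨Or.inr (Or.inr h1.symm), Or.inr (Or.inr (by rw [B.nst, h1]))⟩

lemma end_loc {a : ℕ} (B : BS σ (2 ^ a)) (ω ω' : V → Om a) (v : V)
    (h : ω (B.st v) = ω' (B.st v)) : isEnd B ω v ↔ isEnd B ω' v := by
  unfold isEnd; rw [h]

lemma flex_loc {a : ℕ} (ha : 10 ≤ a) (B : BS σ (2 ^ a)) (ω ω' : V → Om a) (v : V)
    (h : ∀ v' ∈ nb B v, ω v' = ω' v') (hv : isFlex B ω v) : isFlex B ω' v := by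
  have hlt : ∀ j, j ≤ 2 ^ (a - 10) → j < 2 ^ a := by
    intro j hj
    exact lt_of_le_of_lt hj (Nat.pow_lt_pow_right (by norm_num) (by omega))
  refine ⟨?_, ?_, ?_⟩
  · rw [← h v (nb_self B v)]; exact hv.1
  · intro j hj1 hj
    have := hv.2.1 j hj1 hj
    rw [← h _ (nb_fwd B v j (hlt j hj)).1, ← h _ (nb_bwd B v j (hlt j hj)).1]
    exact this
  · intro j hj
    have := hv.2.2 j hj
    rw [← end_loc B ω ω' _ (h _ (nb_fwd B v j (hlt j hj)).2),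
      ← end_loc B ω ω' _ (h _ (nb_bwd B v j (hlt j hj)).2)]
    exact this

theorem loc : LocStmt := by
  intro V _ σ a B ω ω' v ha h
  refine ⟨⟨flex_loc ha B ω ω' v h, flex_loc ha B ω' ω v fun v' hv' => (h v' hv').symm⟩,
    end_loc B ω ω' v (h _ (nb_st B v)), ?_, ?_⟩
  · unfold tl; rw [h _ (nb_st B v), h _ (nb_nx B v)]
  · unfold hl; rw [h _ (nb_st B v), h _ (nb_nx B v)]

end Pool.Agent.LPY.H48
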