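import Pool.Agent.Helper48_LPY.Stmts
import Pool.Agent.Helper48_LPY.Basic

/-!
# LPY: module SMN
-/

set_option autoImplicit false

namespace Pool.Agent.LPY.H48

open Pool.Agent.LAX Pool.Agent.LPY

theorem smn : SmnStmt := by
  intro k l hk h
  have hk1 : (1 : ℝ) ≤ k := by exact_mod_cast hk
  set x := (2 : ℝ) ^ l with hx
  have he3 : Real.exp 4 ≥ 12 := by
    have h1 : Real.exp 4 = Real.exp 1 ^ 4 := by rw [← Real.exp_nat_mul]; norm_num
    have h2 := Real.exp_one_gt_d9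
    rw [h1]
    have h3 : (2.7 : ℝ) ^ 4 ≤ Real.exp 1 ^ 4 := pow_le_pow_left₀ (by norm_num) (by linarith) 4
    norm_num at h3 ⊢
    linarith
  have hx1 : 1 ≤ x := one_le_pow₀ (by norm_num)
  refine ⟨?_, ?_, ?_⟩
  · have h1 : (17 * (k : ℝ) ^ 2) ^ 12 ≤ Real.exp x ^ 12 :=
      pow_le_pow_left₀ (by positivity) h 12
    have h2 : Real.exp (-(12 * x)) * Real.exp x ^ 12 = 1 := by
      rw [← Real.exp_nat_mul, ← Real.exp_add]
      simp
    have h3 : (64 * ((k ^ 3 : ℕ) : ℝ) * (2 ^ 13 * k ^ 3 : ℕ) * (2 ^ 14 * k ^ 4 : ℕ) ^ 2) ≤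
        (17 * (k : ℝ) ^ 2) ^ 12 := by
      push_cast
      have h4 : (64 : ℝ) * k ^ 3 * (8192 * k ^ 3) * (16384 * k ^ 4) ^ 2 = 2 ^ 47 * k ^ 14 := by ring
      rw [h4]
      have h5 : (17 * (k : ℝ) ^ 2) ^ 12 = 17 ^ 12 * (k ^ 14 * k ^ 10) := by ring
      rw [h5]
      have h6 : (1 : ℝ) ≤ (k : ℝ) ^ 10 := one_le_pow₀ hk1
      have h7 : (0 : ℝ) ≤ (k : ℝ) ^ 14 := by positivity
      have h8 : (k : ℝ) ^ 14 ≤ k ^ 14 * k ^ 10 := le_mul_of_one_le_right h7 h6
      nlinarith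
    have h9 : 0 ≤ Real.exp (-(12 * x)) := (Real.exp_pos _).le
    calc 64 * ((k ^ 3 : ℕ) : ℝ) * (2 ^ 13 * k ^ 3 : ℕ) * (2 ^ 14 * k ^ 4 : ℕ) ^ 2 *
          Real.exp (-(12 * x)) ≤ Real.exp x ^ 12 * Real.exp (-(12 * x)) :=
          mul_le_mul_of_nonneg_right (h3.trans h1) h9
      _ = 1 := by rw [mul_comm]; exact h2
  · have h1 : th * (2 ^ 24 * x) = 16 * x := by unfold th; ring
    rw [h1]
    have h2 : Real.exp (-(12 * x)) = Real.exp (-(16 * x)) * Real.exp (4 * x) := by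
      rw [← Real.exp_add]; congr 1; ring
    rw [h2]
    have h3 : (12 : ℝ) ≤ Real.exp (4 * x) :=
      he3.le.trans (Real.exp_le_exp.2 (by linarith))
    have h4 := Real.exp_pos (-(16 * x))
    nlinarith
  · have h1 : Real.log (17 * (k : ℝ) ^ 2) ≤ x := by
      rw [← Real.log_exp x]
      exact Real.log_le_log (by positivity) h
    have h2 : Real.log (17 * (k : ℝ) ^ 2) = Real.log 17 + 2 * Real.log k := by
      rw [Real.log_mul (by norm_num) (by positivity), Real.log_pow]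
      norm_num
    have h3 : Real.log (2 * k) = Real.log 2 + Real.log k :=
      Real.log_mul (by norm_num) (by positivity)
    have h4 : 0 ≤ Real.log k := Real.log_nonneg hk1
    have h5 : 2 + Real.log 2 ≤ Real.log 17 := by
      have h6 : Real.log 17 = Real.log 2 + Real.log 8.5 := by
        rw [← Real.log_mul (by norm_num) (by norm_num)]; norm_num
      have h7 : (2 : ℝ) ≤ Real.log 8.5 := by
        rw [Real.le_log_iff_exp_le (by norm_num)]
        have h8 : Real.exp 2 = Real.exp 1 ^ 2 := by rw [← Real.exp_nat_mul]; norm_num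
        have h9 := Real.exp_one_lt_d9
        rw [h8]
        have h10 : Real.exp 1 ^ 2 ≤ (2.72 : ℝ) ^ 2 := pow_le_pow_left₀ (Real.exp_pos 1).le (by linarith) 2
        norm_num at h10 ⊢
        linarith
      linarith
    rw [h3]
    linarith [h1, h2]

end Pool.Agent.LPY.H48
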