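import Pool.Agent.Helper48_LPY.Stmts
import Pool.Agent.Helper48_LPY.Basic

/-!
# LPY: module STN
-/

set_option autoImplicit false

namespace Pool.Agent.LPY.H48

open Pool.Agent.LAX Pool.Agent.LPY

/-- `8 ≤ l`. -/
lemma l8 {k l a h q W : ℕ} (H : NumS k l a h q W) : 8 ≤ l := by
  by_contra hl
  have hl7 : l ≤ 7 := by omega
  have h1 := H.p1
  have h2 : (2 : ℝ) ^ l ≤ 2 ^ 7 := pow_le_pow_right₀ (by norm_num) hl7
  have h3 : Real.exp ((2 : ℝ) ^ l) ≤ Real.exp 128 := Real.exp_le_exp.2 (by linarith)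
  have hk : 2 ^ 116 ≤ k := by
    refine le_trans ?_ H.h1
    apply Nat.pow_le_pow_right (by norm_num)
    have := H.a1
    omega
  have hkr : (2 : ℝ) ^ 116 ≤ k := by exact_mod_cast hk
  have h4 : (2 : ℝ) ^ 232 ≤ (k : ℝ) ^ 2 := by
    calc (2 : ℝ) ^ 232 = (2 ^ 116) ^ 2 := by norm_num
      _ ≤ (k : ℝ) ^ 2 := pow_le_pow_left₀ (by positivity) hkr 2
  have h5 : Real.exp 128 ≤ (3 : ℝ) ^ 128 := by
    have : Real.exp 128 = Real.exp 1 ^ 128 := by rw [← Real.exp_nat_mul]; norm_num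
    rw [this]
    exact pow_le_pow_left₀ (Real.exp_pos 1).le (by have := Real.exp_one_lt_d9; linarith) 128
  have h6 : (3 : ℝ) ^ 128 < 17 * 2 ^ 232 := by norm_num
  nlinarith

lemma aux1 (W' A k k0 : ℕ) (h1 : W' ≤ 4 * A) (h2 : 2 ^ 52 * A ≤ k) (h3 : 7 * k ≤ 8 * k0) :
    20 * W' ≤ k0 := by omega

lemma aux2 (x k : ℕ) (h : 2 ^ 52 * x ≤ k) : 1024 * x ≤ k := by omega

/-- The real inequality. -/
lemma auxR (A L H k k0 W' : ℝ) (rA : 1 ≤ A) (rL : 256 ≤ L) (rH : 1 ≤ H)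
    (rk1 : H * A * 2 ^ 52 * L ^ 2 ≤ k) (rk07 : 7 * k ≤ 8 * k0) (rk0k : k0 ≤ k) (rk01 : 1 ≤ k0)
    (rW : W' ≤ 4 * A) :
    2 ^ 27 * L ≤ 7 * k / (4096 * A * H) ∧
    600 * L * (2 ^ 24 * L + 16 * L) / (k0 * (7 / (1024 * A))) + 2 * W' / k0 ≤
      (9 / 5 * (7 * k / (4096 * A * H)) - 16 * L) / (5 * (4 * k0 * (7 / (1024 * A)))) := by
  have hApos : 0 < A := by linarith
  have hHpos : 0 < H := by linarith
  have hLpos : 0 < L := by linarith
  have hk0pos : 0 < k0 := by linarith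
  have hL2 : 256 * L ≤ L ^ 2 := by
    rw [pow_two]; exact mul_le_mul_of_nonneg_right rL hLpos.le
  have h8 : 0 < H * A * L ^ 2 := by positivity
  have rk2 : 2 ^ 52 * (H * A * L ^ 2) ≤ k := by linarith
  have hrz2 : 7 * 2 ^ 40 * L ^ 2 ≤ 7 * k / (4096 * A * H) := by
    rw [le_div_iff₀ (by positivity)]
    have e7 : 7 * 2 ^ 40 * L ^ 2 * (4096 * A * H) = 7 * (2 ^ 52 * (H * A * L ^ 2)) := by ring
    rw [e7]
    linarith
  refine ⟨by linarith, ?_⟩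
  have h5 : 7 * (2 ^ 52 * (H * A * L ^ 2)) ≤ 8 * k0 := by linarith
  have hR : 17 / 10 * (7 * k / (4096 * A * H)) / (20 * k0 * (7 / (1024 * A))) ≤
      (9 / 5 * (7 * k / (4096 * A * H)) - 16 * L) / (5 * (4 * k0 * (7 / (1024 * A)))) := by
    have h20 : (5 * (4 * k0 * (7 / (1024 * A)))) = 20 * k0 * (7 / (1024 * A)) := by ring
    rw [h20]
    apply div_le_div_of_nonneg_right _ (by positivity)
    linarith
  refine le_trans ?_ hR
  have hR2 : 17 / 10 * (7 * k / (4096 * A * H)) / (20 * k0 * (7 / (1024 * A))) =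
      17 * k / (800 * k0 * H) := by
    field_simp; ring
  rw [hR2]
  have hR3 : 1 / (48 * H) ≤ 17 * k / (800 * k0 * H) := by
    rw [div_le_div_iff₀ (by positivity) (by positivity)]
    have e1 : k0 * H ≤ k * H := mul_le_mul_of_nonneg_right rk0k hHpos.le
    have e2 : 0 ≤ k * H := by
      have : 0 ≤ k := by linarith
      positivity
    linarith
  refine le_trans ?_ hR3
  have hL3 : 600 * L * (2 ^ 24 * L + 16 * L) / (k0 * (7 / (1024 * A))) ≤ 1 / (100 * H) := by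
    rw [div_le_div_iff₀ (by positivity) (by positivity)]
    have h6 : 600 * L * (2 ^ 24 * L + 16 * L) * (100 * H) * (1024 * A) ≤ 7 * k0 := by
      have h7 : 600 * L * (2 ^ 24 * L + 16 * L) * (100 * H) * (1024 * A) =
        (600 * (2 ^ 24 + 16) * 100 * 1024) * (H * A * L ^ 2) := by ring
      rw [h7]
      linarith
    have h9 : 600 * L * (2 ^ 24 * L + 16 * L) * (100 * H) ≤ 7 * k0 / (1024 * A) := by
      rw [le_div_iff₀ (by positivity)]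
      exact h6
    calc 600 * L * (2 ^ 24 * L + 16 * L) * (100 * H) ≤ 7 * k0 / (1024 * A) := h9
      _ = 1 * (k0 * (7 / (1024 * A))) := by ring
  have hL4 : 2 * W' / k0 ≤ 1 / (100 * H) := by
    rw [div_le_div_iff₀ hk0pos (by positivity)]
    have h6 : H * A * 1 ≤ H * A * L ^ 2 := by
      apply mul_le_mul_of_nonneg_left _ (by positivity)
      exact one_le_pow₀ (by linarith)
    have h7 : 2 * W' * (100 * H) ≤ 800 * (H * A) := by
      have := mul_le_mul_of_nonneg_right rW hHpos.le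
      linarith
    linarith
  have h9 : 1 / (100 * H) + 1 / (100 * H) ≤ 1 / (48 * H) := by
    rw [← add_div, div_le_div_iff₀ (by positivity) (by positivity)]
    linarith
  linarith

/-- The facts on natural numbers. -/
lemma auxN {k l a h q W : ℕ} (H : NumS k l a h q W) :
    2 ^ h * 2 ^ a * 2 ^ 52 * (2 ^ l) ^ 2 ≤ k ∧ W + 2 ^ (2 * l + 64) ≤ 4 * 2 ^ a ∧
    2 ^ 52 * 2 ^ a ≤ k ∧ 2 ^ 52 * (2 ^ a * 2 ^ l) ≤ k ∧ 2 ^ 52 * (2 ^ h * 2 ^ l) ≤ k ∧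
    16 * (q / 2 ^ (a + l - 6)) ≤ 2 ^ (l + 60) * 2 ^ h := by
  have hl := l8 H
  have ha := H.a1
  have h1 := H.h1
  have h2 := H.h2
  have hw := H.w1
  have hq8 := H.q2
  have hq1 := H.q3
  obtain ⟨t, ht⟩ := H.q1
  have hA1 : 1 ≤ 2 ^ a := Nat.one_le_two_pow
  have hL1 : 1 ≤ 2 ^ l := Nat.one_le_two_pow
  have hH1 : 1 ≤ 2 ^ h := Nat.one_le_two_pow
  have hP1 : 1 ≤ 2 ^ (a + l - 6) := Nat.one_le_two_pow
  have hP2 : 64 * 2 ^ (a + l - 6) = 2 ^ a * 2 ^ l := by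
    rw [← pow_add]
    have : a + l = (a + l - 6) + 6 := by omega
    conv_rhs => rw [this]
    rw [pow_add]; ring
  have hk1 : 2 ^ h * 2 ^ a * 2 ^ 52 * (2 ^ l) ^ 2 ≤ k := by
    refine le_trans (le_of_eq ?_) h1
    rw [← pow_mul, ← pow_add, ← pow_add, ← pow_add]
    congr 1
    ring
  have hk2 : k < 2 ^ h * 2 ^ a * 2 ^ 53 * (2 ^ l) ^ 2 := by
    refine lt_of_lt_of_le h2 (le_of_eq ?_)
    rw [← pow_mul, ← pow_add, ← pow_add, ← pow_add]
    congr 1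
    ring
  have hW2 : W + 2 ^ (2 * l + 64) ≤ 4 * 2 ^ a := by
    refine hw.trans (le_of_eq ?_)
    rw [pow_add]; ring
  generalize 2 ^ (2 * l + 64) = X at *
  have e60 : 2 ^ (l + 60) = 2 ^ 60 * 2 ^ l := by rw [pow_add]; ring
  rw [e60]
  generalize 2 ^ (a + l - 6) = P at *
  generalize 2 ^ l = L at *
  generalize 2 ^ a = A at *
  generalize 2 ^ h = Hh at *
  clear h1 h2 hw H
  refine ⟨hk1, hW2, ?_, ?_, ?_, ?_⟩
  · refine le_trans ?_ hk1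
    calc 2 ^ 52 * A = 2 ^ 52 * A * (1 * 1 ^ 2) := by ring
      _ ≤ 2 ^ 52 * A * (Hh * L ^ 2) := by gcongr
      _ = Hh * A * 2 ^ 52 * L ^ 2 := by ring
  · refine le_trans ?_ hk1
    calc 2 ^ 52 * (A * L) = 2 ^ 52 * A * L * (1 * 1) := by ring
      _ ≤ 2 ^ 52 * A * L * (Hh * L) := by gcongr
      _ = Hh * A * 2 ^ 52 * L ^ 2 := by ring
  · refine le_trans ?_ hk1
    calc 2 ^ 52 * (Hh * L) = 2 ^ 52 * Hh * L * (1 * 1) := by ring
      _ ≤ 2 ^ 52 * Hh * L * (A * L) := by gcongr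
      _ = Hh * A * 2 ^ 52 * L ^ 2 := by ring
  · have h3 : q / P = t := by rw [ht]; exact Nat.mul_div_cancel_left _ hP1
    rw [h3]
    have h5 : 8 * (P * t) < Hh * A * 2 ^ 53 * L ^ 2 := by rw [← ht]; exact lt_of_le_of_lt hq8 hk2
    have h6 : 8 * (64 * P * t) < 64 * (Hh * A * 2 ^ 53 * L ^ 2) := by
      calc 8 * (64 * P * t) = 64 * (8 * (P * t)) := by ring
        _ < 64 * (Hh * A * 2 ^ 53 * L ^ 2) := by
          apply Nat.mul_lt_mul_of_pos_left h5 (by norm_num)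
    rw [hP2] at h6
    have h7 : (A * L) * (8 * t) < (A * L) * (64 * 2 ^ 53 * (Hh * L)) := by
      calc (A * L) * (8 * t) = 8 * (A * L * t) := by ring
        _ < 64 * (Hh * A * 2 ^ 53 * L ^ 2) := h6
        _ = (A * L) * (64 * 2 ^ 53 * (Hh * L)) := by ring
    have h8 : 8 * t < 64 * 2 ^ 53 * (Hh * L) := lt_of_mul_lt_mul_left h7 (Nat.zero_le _)
    calc 16 * t = 2 * (8 * t) := by ring
      _ ≤ 2 * (64 * 2 ^ 53 * (Hh * L)) := by
        apply Nat.mul_le_mul_left _ h8.le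
      _ = 2 ^ 60 * L * Hh := by ring

theorem stn : StnStmt := by
  intro k l a h q W H
  have hl := l8 H
  have ha := H.a1
  have hq8 := H.q2
  have hq1 := H.q3
  obtain ⟨hk1, hW2, hkA, hkL, hkH, hlast⟩ := auxN H
  have hL1 : 256 ≤ 2 ^ l := by
    calc 256 = 2 ^ 8 := by norm_num
      _ ≤ 2 ^ l := Nat.pow_le_pow_right (by norm_num) hl
  have rA : (1 : ℝ) ≤ 2 ^ a := one_le_pow₀ (by norm_num)
  have rH : (1 : ℝ) ≤ 2 ^ h := one_le_pow₀ (by norm_num)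
  have rL : (256 : ℝ) ≤ 2 ^ l := by exact_mod_cast hL1
  have rk1 : (2 : ℝ) ^ h * 2 ^ a * 2 ^ 52 * (2 ^ l) ^ 2 ≤ k := by exact_mod_cast hk1
  have err : rr a = 7 / (1024 * 2 ^ a) := by
    unfold rr
    rw [pow_add]; ring
  have eh : (2 : ℝ) ^ (h + 2) = 4 * 2 ^ h := by
    rw [pow_add]; ring
  have eH' : (2 : ℝ) ^ (l + 4) = 16 * 2 ^ l := by
    rw [pow_add]; ring
  have hrz : 7 / (1024 * 2 ^ a) * ((k : ℝ) / (4 * 2 ^ h)) = 7 * k / (4096 * 2 ^ a * 2 ^ h) := by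
    field_simp; ring
  have e1 : 2 ^ (a + l + 10) = 1024 * (2 ^ a * 2 ^ l) := by rw [pow_add, pow_add]; ring
  have e2 : 2 ^ (h + l + 10) = 1024 * (2 ^ h * 2 ^ l) := by rw [pow_add, pow_add]; ring
  obtain ⟨W', hW'⟩ : ∃ W', W' = W + 2 ^ (2 * l + 64) := ⟨_, rfl⟩
  rw [← hW'] at hW2 ⊢
  clear hW'
  obtain ⟨k0, hk0⟩ : ∃ k0, k0 = k - q + W' := ⟨_, rfl⟩
  rw [← hk0]
  have hPA : W' ≤ q := by
    refine hW2.trans ?_
    have h3 : 2 ^ (a + l - 6) ≤ q := Nat.le_of_dvd hq1 H.q1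
    refine le_trans ?_ h3
    have : 4 * 2 ^ a = 2 ^ (a + 2) := by rw [pow_add]; ring
    rw [this]
    exact Nat.pow_le_pow_right (by norm_num) (by omega)
  have hk0k : k0 ≤ k := by
    clear hk1 hW2 hkA hkL hkH hlast e1 e2 hL1
    omega
  have hk07 : 7 * k ≤ 8 * k0 := by
    clear hk1 hW2 hkA hkL hkH hlast e1 e2 hL1
    omega
  have hk01 : 1 ≤ k0 := by
    clear hk1 hW2 hkA hkL hkH hlast e1 e2 hL1
    omega
  have rk07 : 7 * (k : ℝ) ≤ 8 * k0 := by exact_mod_cast hk07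
  have rk0k : (k0 : ℝ) ≤ k := by exact_mod_cast hk0k
  have rk01 : (1 : ℝ) ≤ k0 := by exact_mod_cast hk01
  have rW : (W' : ℝ) ≤ 4 * 2 ^ a := by exact_mod_cast hW2
  obtain ⟨hR1, hR2⟩ := auxR (2 ^ a) (2 ^ l) (2 ^ h) k k0 W' rA rL rH rk1 rk07 rk0k rk01 rW
  refine ⟨by omega, by rw [e1]; exact aux2 _ _ hkL, by rw [e2]; exact aux2 _ _ hkH, hk01, hk0k,
    aux1 W' _ k k0 hW2 hkA hk07, ?_, ?_, hlast⟩
  · rw [err, eh, hrz]; exact hR1
  · unfold HC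
    have hc : ((2 ^ (l + 4) : ℕ) : ℝ) = 16 * 2 ^ l := by push_cast; exact eH'
    have hs : 9 / 5 * (7 / (1024 * 2 ^ a)) * ((k : ℝ) / (4 * 2 ^ h)) =
      9 / 5 * (7 * k / (4096 * 2 ^ a * 2 ^ h)) := by rw [← hrz]; ring
    rw [err, eh, eH', hc, hs]
    exact hR2

end Pool.Agent.LPY.H48
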