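import Pool.Agent.Helper48_LPY.Stmts
import Pool.Agent.Helper48_LPY.Basic
import Pool.Agent.Helper48_LPY.Stn

/-!
# LPY: module STP1
-/

set_option autoImplicit false

namespace Pool.Agent.LPY.H48

open Pool.Agent.LAX Pool.Agent.LPY

open Classical in
/-- The counter after the block. -/
noncomputable def inc {V : Type} (Z : Set V) (cp : V → ℕ) (v : V) : ℕ :=
  if v ∈ Z then cp v + 1 else cp v

lemma inc_mem {V : Type} {Z : Set V} {cp : V → ℕ} {v : V} (h : v ∈ Z) : inc Z cp v = cp v + 1 :=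
  if_pos h

lemma inc_nmem {V : Type} {Z : Set V} {cp : V → ℕ} {v : V} (h : v ∉ Z) : inc Z cp v = cp v :=
  if_neg h

lemma sum_inc {V : Type} [Fintype V] (S Z : Set V) (cp : V → ℕ) :
    ∑ v, S.indicator (fun v => (inc Z cp v : ℝ)) v =
      ∑ v, S.indicator (fun v => (cp v : ℝ)) v + ((S ∩ Z).ncard : ℝ) := by
  classical
  have h1 : ((S ∩ Z).ncard : ℝ) = ∑ v, (S ∩ Z).indicator (fun _ => (1 : ℝ)) v := by
    rw [Set.ncard_eq_toFinset_card' (S ∩ Z)]
    simp only [Set.indicator_apply]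
    rw [Finset.sum_ite, Finset.sum_const_zero, add_zero, Finset.sum_const, nsmul_eq_mul, mul_one]
    congr 2
    ext v
    simp
  rw [h1, ← Finset.sum_add_distrib]
  refine Finset.sum_congr rfl fun v _ => ?_
  by_cases hS : v ∈ S <;> by_cases hZ : v ∈ Z
  · rw [Set.indicator_of_mem hS, Set.indicator_of_mem hS, Set.indicator_of_mem (show v ∈ S ∩ Z from ⟨hS, hZ⟩),
      inc_mem hZ]
    push_cast; ring
  · rw [Set.indicator_of_mem hS, Set.indicator_of_mem hS,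
      Set.indicator_of_notMem (fun h => hZ h.2), inc_nmem hZ, add_zero]
  · rw [Set.indicator_of_notMem hS, Set.indicator_of_notMem hS,
      Set.indicator_of_notMem (fun h => hS h.1), add_zero]
  · rw [Set.indicator_of_notMem hS, Set.indicator_of_notMem hS,
      Set.indicator_of_notMem (fun h => hS h.1), add_zero]

/-- The numbers of missing classes. -/
lemma miss_le {q W l : ℕ} (V : Type) (C : Finset ℕ) (hC : ∀ c ∈ C, c < q) (K K1 K2 : ℕ → Set V)
    (Z : Set V) (cp : V → ℕ) (v : V) (h1 : ∀ c ∈ C, K1 c = K c) (h2 : ∀ c, c ∉ C → K2 c = K1 c)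
    (hW : {c | c < q ∧ v ∉ K1 c}.ncard ≤ W + 2 ^ (l + 4) * cp v)
    (h3 : ∀ c ∈ C, v ∉ Z → v ∈ K c → v ∈ K2 c)
    (h4 : {c | c ∈ C ∧ v ∈ K c ∧ v ∉ K2 c}.ncard ≤ 2 ^ (l + 4)) :
    {c | c < q ∧ v ∉ K2 c}.ncard ≤ W + 2 ^ (l + 4) * inc Z cp v := by
  have hsub : {c | c < q ∧ v ∉ K2 c} ⊆
      {c | c < q ∧ v ∉ K1 c} ∪ {c | c ∈ C ∧ v ∈ K c ∧ v ∉ K2 c} := by
    rintro c ⟨hc, hv⟩
    by_cases hcC : c ∈ C
    · by_cases hvK : v ∈ K c
      · right; exact ⟨hcC, hvK, hv⟩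
      · left; refine ⟨hc, ?_⟩; rw [h1 c hcC]; exact hvK
    · left; refine ⟨hc, ?_⟩; rw [← h2 c hcC]; exact hv
  have hfin1 : {c | c < q ∧ v ∉ K1 c}.Finite := (Set.finite_lt_nat q).subset fun c hc => hc.1
  have hfin2 : {c | c ∈ C ∧ v ∈ K c ∧ v ∉ K2 c}.Finite :=
    (Set.finite_lt_nat q).subset fun c hc => hC c hc.1
  have h5 := Set.ncard_le_ncard hsub (hfin1.union hfin2)
  have h6 := Set.ncard_union_le {c | c < q ∧ v ∉ K1 c} {c | c ∈ C ∧ v ∈ K c ∧ v ∉ K2 c}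
  by_cases hZ : v ∈ Z
  · rw [inc_mem hZ, Nat.mul_add, Nat.mul_one]
    omega
  · rw [inc_nmem hZ]
    have h7 : {c | c ∈ C ∧ v ∈ K c ∧ v ∉ K2 c} = ∅ := by
      rw [Set.eq_empty_iff_forall_notMem]
      rintro c ⟨a1, a2, a3⟩
      exact a3 (h3 c a1 hZ a2)
    have h8 : {c | c ∈ C ∧ v ∈ K c ∧ v ∉ K2 c}.ncard = 0 := by rw [h7, Set.ncard_empty]
    omega

theorem stp1 (hBLK : BlkStmt) (hZST : ZstStmt) (hSTN : StnStmt) (hDEG : DegStmt) : Stp1Stmt := by
  intro V _ _ E k l a h q W n σ K K1 cp cm HN hE hCyc hK hnq hK1 hCW hK1K hD hmiss hcap hbud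
  obtain ⟨n1, n2, n3, n4, n5, n6, n7, n8, n9⟩ := hSTN k l a h q W HN
  have hq8 := HN.q2
  have hq1 := HN.q3
  obtain ⟨W', hW'⟩ : ∃ W', W' = W + 2 ^ (2 * l + 64) := ⟨_, rfl⟩
  rw [← hW'] at n4 n5 n6 n8
  obtain ⟨k0, hk0⟩ : ∃ k0, k0 = k - q + W' := ⟨_, rfl⟩
  rw [← hk0] at n4 n5 n6 n8
  obtain ⟨P, hP⟩ : ∃ P, P = 2 ^ (a + l - 6) := ⟨_, rfl⟩
  rw [← hP] at hnq hCW hK1K n9 ⊢
  have hP1 : 1 ≤ P := by rw [hP]; exact Nat.one_le_two_pow
  -- the number of blocks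
  have hn : n ≤ q / P := by
    rw [Nat.le_div_iff_mul_le hP1]
    refine le_trans ?_ hnq
    exact Nat.mul_le_mul_right _ (Nat.le_succ n)
  have h16 : 16 * n ≤ 2 ^ (l + 60) * 2 ^ h := le_trans (Nat.mul_le_mul_left _ hn) n9
  -- the block
  obtain ⟨C, hCdef⟩ : ∃ C : Finset ℕ, C = Finset.Ico (n * P) ((n + 1) * P) := ⟨_, rfl⟩
  have hCmem : ∀ c, c ∈ C ↔ n * P ≤ c ∧ c < (n + 1) * P := fun c => by
    rw [hCdef]; exact Finset.mem_Ico
  have hCcard : C.card ≤ 2 ^ (a + l - 6) := by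
    rw [hCdef, Nat.card_Ico, ← hP]
    have : (n + 1) * P = n * P + P := by ring
    omega
  have hCq : ∀ c ∈ C, c < q := fun c hc => lt_of_lt_of_le ((hCmem c).1 hc).2 hnq
  have hCK : ∀ c ∈ C, K1 c = K c := fun c hc => hK1K c ((hCmem c).1 hc).1
  -- what is left
  obtain ⟨R, hR⟩ : ∃ R : Set (V × V), R = {p | p ∈ E ∧ ∀ c < q, p ∉ K1 c} := ⟨_, rfl⟩
  have hRE : R ⊆ E := by rw [hR]; exact fun p hp => hp.1
  have hRK : ∀ c < q, ∀ p ∈ R, p ∉ K1 c := by
    intro c hc p hp; rw [hR] at hp; exact hp.2 c hc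
  have hdeg := hDEG V E k q K1 hE hK1 hD
  rw [← hR] at hdeg
  have hpw : 2 ^ (l + 4) * 2 ^ (l + 60) = 2 ^ (2 * l + 64) := by rw [← pow_add]; congr 1; ring
  have hmW : ∀ v, {c | c < q ∧ v ∉ dom (K1 c)}.ncard ≤ W' ∧
      {c | c < q ∧ v ∉ ran (K1 c)}.ncard ≤ W' := by
    intro v
    have e1 := Nat.mul_le_mul_left (2 ^ (l + 4)) (hcap v).1
    have e2 := Nat.mul_le_mul_left (2 ^ (l + 4)) (hcap v).2
    rw [hpw] at e1 e2
    have e3 := (hmiss v).1
    have e4 := (hmiss v).2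
    rw [hW']
    exact ⟨e3.trans (Nat.add_le_add_left e1 _), e4.trans (Nat.add_le_add_left e2 _)⟩
  have hqk : q ≤ k := by omega
  have hdeg2 : ∀ x, k0 ≤ (out R x).ncard + W' ∧ (out R x).ncard ≤ k0 ∧ k0 ≤ (inn R x).ncard + W' ∧
      (inn R x).ncard ≤ k0 := by
    intro x
    have e1 := (hdeg x).1
    have e2 := (hdeg x).2
    have e3 := (hmW x).1
    have e4 := (hmW x).2
    rw [hk0]
    clear hW' hk0 n9 h16 hpw n2 n3
    refine ⟨by omega, by omega, by omega, by omega⟩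
  have h78 : ∀ x, 7 * k ≤ 8 * (out R x).ncard ∧ 7 * k ≤ 8 * (inn R x).ncard := by
    intro x
    have e1 := (hdeg x).1
    have e2 := (hdeg x).2
    clear hW' hk0 n9 h16 hpw n2 n3
    exact ⟨by omega, by omega⟩
  -- eligible sets
  obtain ⟨Zp, hZp1, hZp2⟩ := hZST V E R k l h q n σ cp HN.p1 n3 hq8 hE hRE (fun x => (h78 x).1) h16
    (fun c hc x => (hbud c hc x).1)
  have hErv : Reg (Pool.Agent.LAX.rv E) k := fun v => ⟨(hE v).2, (hE v).1⟩
  obtain ⟨Zm, hZm1, hZm2⟩ := hZST V (Pool.Agent.LAX.rv E) (Pool.Agent.LAX.rv R) k l h q n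
    (fun c => (σ c)⁻¹) cm HN.p1 n3 hq8 hErv (fun p hp => hRE hp) (fun x => (h78 x).2) h16
    (fun c hc x => (hbud c hc x).2)
  have hZm3 : ∀ c < q, ∀ x, (k : ℝ) / 2 ^ (h + 2) ≤ ({v | (v, x) ∈ R ∧ σ c v ∈ Zm}.ncard : ℝ) := by
    intro c hc x
    refine le_trans (hZm2 c hc x).1 (le_of_eq ?_)
    have e : {v | (x, (σ c)⁻¹ v) ∈ Pool.Agent.LAX.rv R ∧ v ∈ Zm} =
        (σ c) '' {v | (v, x) ∈ R ∧ σ c v ∈ Zm} := by
      ext v
      simp only [Set.mem_setOf_eq, Set.mem_image, mem_rv]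
      constructor
      · rintro ⟨a1, a2⟩
        exact ⟨(σ c)⁻¹ v, ⟨a1, by simpa using a2⟩, by simp⟩
      · rintro ⟨u, ⟨a1, a2⟩, rfl⟩
        exact ⟨by simpa using a1, a2⟩
    have e2 : {v | (x, (fun c => (σ c)⁻¹) c v) ∈ Pool.Agent.LAX.rv R ∧ v ∈ Zm} =
        (σ c) '' {v | (v, x) ∈ R ∧ σ c v ∈ Zm} := e
    rw [e2, Set.ncard_image_of_injective _ (σ c).injective]
  obtain ⟨K', hK'1, hK'2, hK'3⟩ := hBLK V k l a C σ R K Zp Zm k0 W' ((k : ℝ) / 2 ^ (h + 2)) HN.p1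
    n1 n2 hCcard hCyc hK n4 n5 n6 hdeg2
    (fun c hc x => ⟨(hZp2 c (hCq c hc) x).1, hZm3 c (hCq c hc) x⟩) n7 n8
  classical
  refine ⟨fun c => if c ∈ C then K' c else K1 c, inc Zp cp, inc Zm cm, ?_, ?_, ?_, ?_, ?_, ?_, ?_⟩
  · intro c hc
    by_cases hcC : c ∈ C
    · simp only [if_pos hcC]
      refine ⟨?_, (hK'1 c hcC).1⟩
      refine (hK'1 c hcC).2.2.1.trans (Set.union_subset ?_ hRE)
      rw [← hCK c hcC]
      exact (hK1 c hc).1
    · simp only [if_neg hcC]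
      exact hK1 c hc
  · intro c hc
    by_cases hcC : c ∈ C
    · simp only [if_pos hcC]
      exact (hK'1 c hcC).2.1
    · simp only [if_neg hcC]
      apply hCW
      by_contra hcon
      exact hcC ((hCmem c).2 ⟨by omega, hc⟩)
  · intro c hc
    have hcC : c ∉ C := fun hh => by
      have := ((hCmem c).1 hh).2
      omega
    simp only [if_neg hcC]
    apply hK1K
    refine le_trans ?_ hc
    exact Nat.mul_le_mul_right _ (Nat.le_succ n)
  · -- disjoint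
    have hmix : ∀ c < q, ∀ d < q, c ≠ d → c ∈ C → Disjoint (K' c) (K1 d) := by
      intro c hc d hd hcd hcC
      have h1 : K' c ⊆ K1 c ∪ R := by rw [hCK c hcC]; exact (hK'1 c hcC).2.2.1
      rw [Set.disjoint_left]
      intro p hp hpd
      rcases h1 hp with hp1 | hp1
      · exact Set.disjoint_left.1 (hD c hc d hd hcd) hp1 hpd
      · exact hRK d hd p hp1 hpd
    intro c hc d hd hcd
    by_cases hcC : c ∈ C <;> by_cases hdC : d ∈ C
    · simp only [if_pos hcC, if_pos hdC]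
      rw [Set.disjoint_left]
      intro p hp hpd
      by_cases h1 : p ∈ K1 c
      · exact Set.disjoint_left.1 (hmix d hd c hc (Ne.symm hcd) hdC) hpd h1
      · by_cases h2 : p ∈ K1 d
        · exact Set.disjoint_left.1 (hmix c hc d hd hcd hcC) hp h2
        · rw [hCK c hcC] at h1
          rw [hCK d hdC] at h2
          exact Set.disjoint_left.1 (hK'2 c hcC d hdC hcd) ⟨hp, h1⟩ ⟨hpd, h2⟩
    · simp only [if_pos hcC, if_neg hdC]
      exact hmix c hc d hd hcd hcC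
    · simp only [if_neg hcC, if_pos hdC]
      exact (hmix d hd c hc (Ne.symm hcd) hdC).symm
    · simp only [if_neg hcC, if_neg hdC]
      exact hD c hc d hd hcd
  · intro v
    constructor
    · refine miss_le V C hCq (fun c => dom (K c)) (fun c => dom (K1 c))
        (fun c => dom (if c ∈ C then K' c else K1 c)) Zp cp v ?_ ?_ (hmiss v).1 ?_ ?_
      · intro c hc; simp only [hCK c hc]
      · intro c hc; simp only [if_neg hc]
      · intro c hc hv hvK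
        simp only [if_pos hc]
        exact (hK'1 c hc).2.2.2.1 v hv hvK
      · refine le_trans (Set.ncard_le_ncard ?_ (C.finite_toSet.subset fun c hc => hc.1)) (hK'3 v).1
        rintro c ⟨a1, a2, a3⟩
        simp only [if_pos a1] at a3
        exact ⟨a1, a2, a3⟩
    · refine miss_le V C hCq (fun c => ran (K c)) (fun c => ran (K1 c))
        (fun c => ran (if c ∈ C then K' c else K1 c)) Zm cm v ?_ ?_ (hmiss v).2 ?_ ?_
      · intro c hc; simp only [hCK c hc]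
      · intro c hc; simp only [if_neg hc]
      · intro c hc hv hvK
        simp only [if_pos hc]
        exact (hK'1 c hc).2.2.2.2 v hv hvK
      · refine le_trans (Set.ncard_le_ncard ?_ (C.finite_toSet.subset fun c hc => hc.1)) (hK'3 v).2
        rintro c ⟨a1, a2, a3⟩
        simp only [if_pos a1] at a3
        exact ⟨a1, a2, a3⟩
  · intro v
    constructor
    · by_cases hv : v ∈ Zp
      · rw [inc_mem hv]; exact hZp1 v hv
      · rw [inc_nmem hv]; exact (hcap v).1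
    · by_cases hv : v ∈ Zm
      · rw [inc_mem hv]; exact hZm1 v hv
      · rw [inc_nmem hv]; exact (hcap v).2
  · intro c hc x
    have b1 := (hbud c hc x).1
    have b2 := (hbud c hc x).2
    have b3 := (hZp2 c hc x).2
    have b4 := (hZm2 c hc x).2
    constructor
    · rw [sum_inc, mul_add]
      have e : {v | (x, σ c v) ∈ E} ∩ Zp = {v | (x, σ c v) ∈ E ∧ v ∈ Zp} := rfl
      rw [e]
      push_cast
      linarith
    · rw [sum_inc, mul_add]
      have e : {v | ((σ c)⁻¹ v, x) ∈ E} ∩ Zm =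
        {v | (x, (fun c => (σ c)⁻¹) c v) ∈ Pool.Agent.LAX.rv E ∧ v ∈ Zm} := rfl
      rw [e]
      push_cast
      linarith

end Pool.Agent.LPY.H48
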