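import Pool.Agent.Helper48_LPY.Stmts
import Pool.Agent.Helper48_LPY.Lab
import Pool.Agent.Helper48_LPY.Loc
import Pool.Agent.Helper48_LPY.Smn
import Pool.Agent.Helper48_LPY.Stn
import Pool.Agent.Helper48_LPY.Stp1
import Pool.Agent.Helper10_LPY.Rnd
import Pool.Agent.Helper11_LPY.Ana
import Pool.Agent.Helper11_LPY.Marf
import Pool.Agent.Helper14_LPY.Rho
import Pool.Agent.Helper18_LPY.Bst
import Pool.Agent.Helper18_LPY.Nbh
import Pool.Agent.Helper27_LPY.Hold
import Pool.Agent.Helper32_LPY.Mat
import Pool.Agent.Helper41_LPY.Ncp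
import Pool.Agent.Helper41_LPY.Zst
import Pool.Agent.Helper4_LPY.Fin
import Pool.Agent.Helper4_LPY.P1
import Pool.Agent.Helper50_LPY.P1m
import Pool.Agent.Helper50_LPY.Par
import Pool.Agent.Helper54_LPY.Add
import Pool.Agent.Helper54_LPY.Blk
import Pool.Agent.Helper54_LPY.Stp
import Pool.Agent.Helper54_LPY.Zsl
import Pool.Agent.Helper56_LPY.Dev
import Pool.Agent.Helper56_LPY.Ite
import Pool.Agent.Helper59_LPY.Fpt
import Pool.Agent.Helper64_LPY.Bpk
import Pool.Agent.Helper64_LPY.Bsum
import Pool.Agent.Helper64_LPY.Cone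
import Pool.Agent.Helper68_LPY.Conu
import Pool.Agent.Helper68_LPY.Sup
import Pool.Agent.Helper76_LPY.Conl
import Pool.Agent.Helper76_LPY.Mare
import Pool.Agent.Helper81_LPY.Md
import Pool.Agent.Helper82_LPY.Hall
import Pool.Agent.Helper82_LPY.Smp
import Pool.Agent.Helper85_LPY.Deg
import Pool.Agent.Helper87_LPY.Bll
import Pool.Agent.Helper87_LPY.Cnt
import Pool.Agent.Helper88_LPY.Conp
import Pool.Agent.Helper88_LPY.Cpy
import Pool.Agent.Helper93_LPY.HIT
import Pool.Agent.Helper93_LPY.KIN
import Pool.Agent.Helper81_LAX.GLm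
import Pool.Agent.Helper81_LAX.HLm
import Pool.Agent.Helper87_LAX.Ip
import Pool.Agent.Helper52_LAX.P1B
import Pool.Agent.Helper53_LAX.P1s
import Pool.Agent.Helper52_LAX.P1I
import Pool.Agent.Helper17_LAX.IT
import Pool.Agent.Helper37_LAX.Ori
import Pool.Agent.Helper3_LAX.Lfo
import Pool.Agent.Helper81_LAX.Rec

/-!
# LPY: everything except CNB, RLK, FCT put together
-/

set_option autoImplicit false

namespace Pool.Agent.LPY

theorem fin_of (hCnb : LabStmt → CnbStmt) (hRlk : LabStmt → RlkStmt)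
    (hFct : LAX.ITStmt → FctStmt) : FinStmt := by
  have lab : LabStmt := H48.lab
  have loc : LocStmt := H48.loc
  have cnb := hCnb lab
  have rlk := hRlk lab
  have fct := hFct LAX.H17.it
  have gl := LAX.H81.gl
  have hl := LAX.H81.hl
  have ip := LAX.H87.ip hl
  have hall := H82.hall (H59.fpt H93.hit) H93.kin
  have mat := H32.mat hall H81.md lab
  have bsum := H64.bsum H27.hold
  have marf := H11.marf loc
  have mare := H76.mare
  have conl := H76.conl bsum marf cnb loc
  have conu := H68.conu bsum marf cnb loc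
  have conp := H88.conp bsum marf mare cnb loc
  have cone := H64.cone bsum mare cnb loc
  have dev := H56.dev conl conp
  have ncp := H41.ncp conl conu cone
  have bll := H87.bll H87.cnt
  have smp := H82.smp bll H54.add_stmt H68.sup H14.rho H85.lift H48.smn (H64.bpk marf mare) ncp dev
    loc H18.nbh
  have blk := H54.blk H18.bst smp mat rlk
  have zst := H41.zst (H54.zsl ip)
  have stp := H54.stp (H48.stp1 blk zst H48.stn H85.deg)
  have cpy := H88.cpy stp
  have p1 := H4.p1 (LAX.H52.p1b gl) (LAX.H53.p1s hl) LAX.H52.p1i H50.p1m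
  have ite := H56.ite p1 cpy
  have rnd := H10.rnd ite fct
  exact H4.fin rnd H50.par (LAX.H81.rec LAX.H37.ori LAX.H3.lfo) H11.ana

end Pool.Agent.LPY
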